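import Mathlib
import Pool.Agent.N375.AV.C
import Pool.Agent.H692R2.USS.T1
import Pool.Agent.H617R3.BT.Sieve

set_option autoImplicit false

/-! All large divisors of almost all integers, and of almost all shifted primes, are outside a given thin set. -/

namespace Pool.Agent.N943.DS

open Finset Classical
open Pool.Agent.N375.AV (Thin absorb)

lemma tot_le (d : ℕ) (hd : 1 ≤ d) : (d : ℝ) / Nat.totient d ≤ 2 * (1 + Real.log d) := by
  have hd0 : (0 : ℝ) < d := by exact_mod_cast hd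
  have h1 : (Nat.totient d : ℝ) = d * ∏ p ∈ d.primeFactors, (1 - (p : ℝ)⁻¹) := by
    have h := Nat.totient_eq_mul_prod_factors d
    have h' : ((Nat.totient d : ℚ) : ℝ) = (((d : ℚ) * ∏ p ∈ d.primeFactors, (1 - (p : ℚ)⁻¹) : ℚ) : ℝ) := by rw [h]
    push_cast at h'
    exact h'
  have h2 : (d : ℝ) / Nat.totient d = ∏ p ∈ d.primeFactors, (1 - (p : ℝ)⁻¹)⁻¹ := by
    rw [h1, Finset.prod_inv_distrib, div_mul_eq_div_div, div_self hd0.ne', one_div]
  rw [h2]
  have h3 := Pool.Agent.H617R3.BT.prod_le_card d.primeFactors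
    (fun p hp => (Nat.prime_of_mem_primeFactors hp).two_le)
  have h4 := Pool.Agent.H617R3.BT.card_primeFactors_le (d := d) (by omega)
  have hl0 : 0 ≤ Real.log d := Real.log_nonneg (by exact_mod_cast hd)
  have hlog2 : (1 / 2 : ℝ) ≤ Real.log 2 := by have := Real.log_two_gt_d9; linarith
  have h5 : Real.log d / Real.log 2 ≤ 2 * Real.log d := by
    rw [div_le_iff₀ (by linarith)]
    nlinarith
  linarith

lemma sum_inv_sq (n : ℕ) : ∑ j ∈ range n, 1 / ((j : ℝ) + 2) ^ 2 ≤ 1 - 1 / ((n : ℝ) + 1) := by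
  induction n with
  | zero => simp
  | succ n ih =>
    rw [sum_range_succ]
    have h : 1 / ((n : ℝ) + 2) ^ 2 ≤ 1 / ((n : ℝ) + 1) - 1 / ((n : ℝ) + 2) := by
      rw [div_sub_div _ _ (by positivity) (by positivity), div_le_div_iff₀ (by positivity) (by positivity)]
      nlinarith [(Nat.cast_nonneg n : (0 : ℝ) ≤ n)]
    push_cast
    have h2 : (n : ℝ) + 1 + 1 = n + 2 := by ring
    rw [h2]
    linarith

/-- the weighted sum of the reciprocals of the large elements of a thin set -/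
theorem tail {β c K : ℝ} (hβ : 0 < β) (hc : 0 < c) (hK : 0 ≤ K) :
    ∃ K' : ℝ, 0 ≤ K' ∧ ∀ E : Set ℕ, Thin β c K E → ∀ y Z : ℕ, 1 ≤ y →
      ∑ d ∈ (Icc y Z).filter (fun d => d ∈ E), (1 + Real.log d) ^ 2 / d ≤
        K' * Real.exp (-(c / 2 * Real.log y ^ β)) := by
  obtain ⟨A, hA0, hA⟩ := absorb 4 hβ (half_pos hc)
  refine ⟨2 * K * (16 * A), by positivity, fun E hE y Z hy => ?_⟩
  have hlog2 : (1 / 2 : ℝ) ≤ Real.log 2 := by have := Real.log_two_gt_d9; linarith
  have hlog2' : Real.log 2 ≤ 1 := by have := Real.log_two_lt_d9; linarith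
  obtain ⟨S, hS⟩ : ∃ S, S = (Icc y Z).filter (fun d => d ∈ E) := ⟨_, rfl⟩
  rw [← hS]
  have hmaps : ∀ d ∈ S, Nat.log 2 d ∈ range (Nat.log 2 Z + 1) := by
    intro d hd
    rw [hS, mem_filter, mem_Icc] at hd
    rw [mem_range]
    exact Nat.lt_succ_of_le (Nat.log_mono_right hd.1.2)
  rw [← Finset.sum_fiberwise_of_maps_to hmaps]
  have hterm : ∀ j ∈ range (Nat.log 2 Z + 1), ∑ d ∈ S.filter (fun d => Nat.log 2 d = j), (1 + Real.log d) ^ 2 / (d : ℝ) ≤
      2 * K * (16 * A) * Real.exp (-(c / 2 * Real.log y ^ β)) * (1 / ((j : ℝ) + 2) ^ 2) := by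
    intro j _
    obtain ⟨t, ht⟩ : ∃ t : ℝ, t = Real.log ((2 ^ (j + 1) : ℕ) : ℝ) := ⟨_, rfl⟩
    have ht' : t = ((j : ℝ) + 1) * Real.log 2 := by
      rw [ht]; push_cast; rw [Real.log_pow]; push_cast; ring
    have hj0 : (0 : ℝ) ≤ j := Nat.cast_nonneg j
    have ht0 : 0 ≤ t := by rw [ht']; positivity
    have ht1 : ((j : ℝ) + 1) / 2 ≤ t := by rw [ht']; nlinarith
    by_cases hy2 : y < 2 ^ (j + 1)
    · have hyt : Real.log y ≤ t := by
        rw [ht]
        apply Real.log_le_log (by exact_mod_cast hy)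
        exact_mod_cast hy2.le
      have hly0 : 0 ≤ Real.log y := Real.log_nonneg (by exact_mod_cast hy)
      have hcard : (((S.filter (fun d => Nat.log 2 d = j)).card : ℕ) : ℝ) ≤ K * (2 ^ (j + 1) : ℕ) * Real.exp (-(c * t ^ β)) := by
        refine le_trans ?_ (ht ▸ hE (2 ^ (j + 1)) Nat.one_le_two_pow)
        have h1 : (S.filter (fun d => Nat.log 2 d = j)).card ≤ ((range (2 ^ (j + 1) + 1)).filter (fun v => v ∈ E)).card := by
          apply card_le_card
          intro d hd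
          rw [mem_filter, hS, mem_filter, mem_Icc] at hd
          rw [mem_filter, mem_range]
          refine ⟨?_, hd.1.2⟩
          have := Nat.lt_pow_succ_log_self (b := 2) (by norm_num) d
          rw [hd.2] at this
          omega
        exact_mod_cast h1
      have hf : ∀ d ∈ S.filter (fun d => Nat.log 2 d = j), (1 + Real.log d) ^ 2 / (d : ℝ) ≤ ((j : ℝ) + 2) ^ 2 / 2 ^ j := by
        intro d hd
        rw [mem_filter, hS, mem_filter, mem_Icc] at hd
        have hd1 : 1 ≤ d := by omega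
        have hd1' : (1 : ℝ) ≤ d := by exact_mod_cast hd1
        have h1 : 2 ^ j ≤ d := by
          rw [← hd.2]; exact Nat.pow_log_le_self 2 (by omega)
        have h2 : d < 2 ^ (j + 1) := by
          have := Nat.lt_pow_succ_log_self (b := 2) (by norm_num) d
          rwa [hd.2] at this
        have h3 : Real.log d ≤ t := by
          rw [ht]
          apply Real.log_le_log (by linarith)
          exact_mod_cast h2.le
        have h4 : t ≤ (j : ℝ) + 1 := by rw [ht']; nlinarith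
        have h5 : 0 ≤ Real.log d := Real.log_nonneg hd1'
        have h6 : (2 : ℝ) ^ j ≤ d := by exact_mod_cast h1
        apply div_le_div₀ (by positivity) _ (by positivity) h6
        apply pow_le_pow_left₀ (by linarith)
        linarith
      have h1 := Finset.sum_le_card_nsmul _ _ _ hf
      rw [nsmul_eq_mul] at h1
      refine h1.trans ?_
      have h2 : (((S.filter (fun d => Nat.log 2 d = j)).card : ℕ) : ℝ) * (((j : ℝ) + 2) ^ 2 / 2 ^ j) ≤
          K * (2 ^ (j + 1) : ℕ) * Real.exp (-(c * t ^ β)) * (((j : ℝ) + 2) ^ 2 / 2 ^ j) :=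
        mul_le_mul_of_nonneg_right hcard (by positivity)
      refine h2.trans ?_
      have h3 : K * (2 ^ (j + 1) : ℕ) * Real.exp (-(c * t ^ β)) * (((j : ℝ) + 2) ^ 2 / 2 ^ j) =
          2 * K * (((j : ℝ) + 2) ^ 2 * Real.exp (-(c * t ^ β))) := by
        push_cast
        rw [pow_succ]
        field_simp
      rw [h3]
      have h4 : Real.exp (-(c * t ^ β)) ≤ Real.exp (-(c / 2 * Real.log y ^ β)) * Real.exp (-(c / 2 * t ^ β)) := by
        rw [← Real.exp_add]
        apply Real.exp_le_exp.2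
        have : Real.log y ^ β ≤ t ^ β := Real.rpow_le_rpow hly0 hyt hβ.le
        nlinarith
      have h5 : ((j : ℝ) + 2) ^ 2 * Real.exp (-(c / 2 * t ^ β)) ≤ 16 * A * (1 / ((j : ℝ) + 2) ^ 2) := by
        have e1 := hA t ht0
        have e2 : ((j : ℝ) + 2) ^ 4 ≤ 16 * (1 + t) ^ 4 := by
          have e3 : (j : ℝ) + 2 ≤ 2 * (1 + t) := by linarith
          calc ((j : ℝ) + 2) ^ 4 ≤ (2 * (1 + t)) ^ 4 := pow_le_pow_left₀ (by positivity) e3 4
            _ = 16 * (1 + t) ^ 4 := by ring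
        have e4 : Real.exp (-(c / 2 * t ^ β)) * Real.exp (c / 2 * t ^ β) = 1 := by
          rw [← Real.exp_add]; simp
        have e5 := Real.exp_pos (-(c / 2 * t ^ β))
        rw [mul_one_div, le_div_iff₀ (by positivity)]
        calc ((j : ℝ) + 2) ^ 2 * Real.exp (-(c / 2 * t ^ β)) * ((j : ℝ) + 2) ^ 2
            = ((j : ℝ) + 2) ^ 4 * Real.exp (-(c / 2 * t ^ β)) := by ring
          _ ≤ (16 * (A * Real.exp (c / 2 * t ^ β))) * Real.exp (-(c / 2 * t ^ β)) := by
              apply mul_le_mul_of_nonneg_right _ e5.le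
              linarith
          _ = 16 * A * (Real.exp (-(c / 2 * t ^ β)) * Real.exp (c / 2 * t ^ β)) := by ring
          _ = 16 * A := by rw [e4, mul_one]
      have h6 := Real.exp_pos (-(c / 2 * Real.log y ^ β))
      calc 2 * K * (((j : ℝ) + 2) ^ 2 * Real.exp (-(c * t ^ β)))
          ≤ 2 * K * (((j : ℝ) + 2) ^ 2 * (Real.exp (-(c / 2 * Real.log y ^ β)) * Real.exp (-(c / 2 * t ^ β)))) := by
            apply mul_le_mul_of_nonneg_left _ (by positivity)
            exact mul_le_mul_of_nonneg_left h4 (by positivity)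
        _ = 2 * K * Real.exp (-(c / 2 * Real.log y ^ β)) * (((j : ℝ) + 2) ^ 2 * Real.exp (-(c / 2 * t ^ β))) := by ring
        _ ≤ 2 * K * Real.exp (-(c / 2 * Real.log y ^ β)) * (16 * A * (1 / ((j : ℝ) + 2) ^ 2)) :=
            mul_le_mul_of_nonneg_left h5 (by positivity)
        _ = _ := by ring
    · have hempty : S.filter (fun d => Nat.log 2 d = j) = ∅ := by
        apply Finset.filter_eq_empty_iff.2
        intro d hd hj
        rw [hS, mem_filter, mem_Icc] at hd
        have := Nat.lt_pow_succ_log_self (b := 2) (by norm_num) d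
        rw [hj] at this
        omega
      rw [hempty, sum_empty]
      positivity
  refine (Finset.sum_le_sum hterm).trans ?_
  rw [← Finset.mul_sum]
  have h1 := sum_inv_sq (Nat.log 2 Z + 1)
  have h2 : ∑ j ∈ range (Nat.log 2 Z + 1), 1 / ((j : ℝ) + 2) ^ 2 ≤ 1 := by
    have : 0 ≤ 1 / (((Nat.log 2 Z + 1 : ℕ) : ℝ) + 1) := by positivity
    linarith
  calc 2 * K * (16 * A) * Real.exp (-(c / 2 * Real.log y ^ β)) * ∑ j ∈ range (Nat.log 2 Z + 1), 1 / ((j : ℝ) + 2) ^ 2
      ≤ 2 * K * (16 * A) * Real.exp (-(c / 2 * Real.log y ^ β)) * 1 :=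
        mul_le_mul_of_nonneg_left h2 (by positivity)
    _ = _ := by ring

/-- **All divisors of almost all integers.** -/
theorem ints {β c K : ℝ} (hβ : 0 < β) (hc : 0 < c) (hK : 0 ≤ K) :
    ∃ K' : ℝ, 0 ≤ K' ∧ ∀ E : Set ℕ, Thin β c K E → ∀ X y : ℕ, 1 ≤ y →
      (((Icc 1 X).filter (fun n => ∃ d : ℕ, d ∣ n ∧ y ≤ d ∧ d ∈ E)).card : ℝ) ≤
        K' * X * Real.exp (-(c / 2 * Real.log y ^ β)) := by
  obtain ⟨K', hK', htail⟩ := tail hβ hc hK
  refine ⟨K', hK', fun E hE X y hy => ?_⟩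
  have hsub : (Icc 1 X).filter (fun n => ∃ d : ℕ, d ∣ n ∧ y ≤ d ∧ d ∈ E) ⊆
      ((Icc y X).filter (fun d => d ∈ E)).biUnion (fun d => (Icc 1 X).filter (fun n => d ∣ n)) := by
    intro n hn
    rw [mem_filter, mem_Icc] at hn
    obtain ⟨⟨hn1, hnX⟩, d, hd, hyd, hdE⟩ := hn
    rw [mem_biUnion]
    have hdn := Nat.le_of_dvd (by omega) hd
    refine ⟨d, ?_, ?_⟩
    · rw [mem_filter, mem_Icc]; exact ⟨⟨hyd, by omega⟩, hdE⟩
    · rw [mem_filter, mem_Icc]; exact ⟨⟨hn1, hnX⟩, hd⟩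
  have h1 := (card_le_card hsub).trans card_biUnion_le
  have h2 : (((Icc 1 X).filter (fun n => ∃ d : ℕ, d ∣ n ∧ y ≤ d ∧ d ∈ E)).card : ℝ) ≤
      ∑ d ∈ (Icc y X).filter (fun d => d ∈ E), (((Icc 1 X).filter (fun n => d ∣ n)).card : ℝ) := by
    exact_mod_cast h1
  refine h2.trans ?_
  have h3 : ∀ d ∈ (Icc y X).filter (fun d => d ∈ E), (((Icc 1 X).filter (fun n => d ∣ n)).card : ℝ) ≤
      X * ((1 + Real.log d) ^ 2 / d) := by
    intro d hd
    rw [mem_filter, mem_Icc] at hd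
    have hd1 : 1 ≤ d := by omega
    have hd1' : (1 : ℝ) ≤ d := by exact_mod_cast hd1
    have e1 : ((Icc 1 X).filter (fun n => d ∣ n)).card = X / d := by
      have := Nat.card_multiples' X d
      rw [← this]
      congr 1
      ext n
      simp only [mem_filter, mem_Icc, mem_range]
      constructor
      · rintro ⟨⟨h1, h2⟩, h3⟩; exact ⟨by omega, by omega, h3⟩
      · rintro ⟨h1, h2, h3⟩; exact ⟨⟨by omega, by omega⟩, h3⟩
    rw [e1]
    have e2 : ((X / d : ℕ) : ℝ) ≤ (X : ℝ) / d := Nat.cast_div_le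
    refine e2.trans ?_
    rw [← mul_div_assoc]
    apply div_le_div_of_nonneg_right _ (by linarith)
    have e3 : 0 ≤ Real.log d := Real.log_nonneg hd1'
    have e4 : 1 ≤ (1 + Real.log d) ^ 2 := one_le_pow₀ (by linarith)
    exact le_mul_of_one_le_right (Nat.cast_nonneg _) e4
  refine (sum_le_sum h3).trans ?_
  rw [← mul_sum]
  calc (X : ℝ) * ∑ d ∈ (Icc y X).filter (fun d => d ∈ E), (1 + Real.log d) ^ 2 / (d : ℝ)
      ≤ X * (K' * Real.exp (-(c / 2 * Real.log y ^ β))) :=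
        mul_le_mul_of_nonneg_left (htail E hE y X hy) (Nat.cast_nonneg _)
    _ = _ := by ring

end Pool.Agent.N943.DS
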