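import Mathlib
import Pool.Agent.N943.DS.Div

set_option autoImplicit false

/-! All large divisors of almost all shifted primes are outside a given thin set. -/

namespace Pool.Agent.N943.DS

open Finset Classical
open Pool.Agent.N375.AV (Thin absorb)

/-- primes `p ≤ X` with `d ∣ p + a`, for `d ≤ √X` -/
lemma bt_small (a : ℤ) (X d : ℕ) (hd : 1 ≤ d) (hX : 4 ≤ X) (hdX : d * d ≤ X) :
    (((Icc 1 X).filter (fun p : ℕ => p.Prime ∧ (d : ℤ) ∣ (p : ℤ) + a)).card : ℝ) ≤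
      176 * (X / Real.log X) * ((1 + Real.log d) ^ 2 / d) := by
  have hd1 : (1 : ℝ) ≤ d := by exact_mod_cast hd
  have hd0 : (0 : ℝ) < d := by linarith
  have hX4 : (4 : ℝ) ≤ X := by exact_mod_cast hX
  have hX0 : (0 : ℝ) < X := by linarith
  obtain ⟨r, hr⟩ : ∃ r : ℕ, r = ((-a) % (d : ℤ)).toNat := ⟨_, rfl⟩
  have hrz : (r : ℤ) = (-a) % (d : ℤ) := by
    rw [hr]; exact Int.toNat_of_nonneg (Int.emod_nonneg _ (by omega))
  have hrd : r < d := by
    have := Int.emod_lt_of_pos (-a) (by omega : (0 : ℤ) < d)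
    omega
  obtain ⟨N, hN⟩ : ∃ N : ℕ, N = X / d + 1 := ⟨_, rfl⟩
  have hdd : d ≤ X := by nlinarith
  have hq1 : d ≤ X / d := by rw [Nat.le_div_iff_mul_le (by omega)]; exact hdX
  have hN2 : 2 ≤ N := by omega
  have hkey : ((Icc 1 X).filter (fun p : ℕ => p.Prime ∧ (d : ℤ) ∣ (p : ℤ) + a)).card ≤
      ((range N).filter (fun k => (r + k * d).Prime)).card := by
    apply Finset.card_le_card_of_injOn (fun p => p / d)
    · intro p hp
      rw [mem_coe, mem_filter, mem_Icc] at hp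
      obtain ⟨⟨hp1, hpX⟩, hpp, hdp⟩ := hp
      rw [mem_coe, mem_filter, mem_range]
      refine ⟨?_, ?_⟩
      · rw [hN]; exact Nat.lt_succ_of_le (Nat.div_le_div_right hpX)
      · have h1 : p % d = r := by
          have h2 : ((p : ℤ)) % (d : ℤ) = (-a) % (d : ℤ) :=
            Int.ModEq.symm (Int.modEq_iff_dvd.2 (by simpa using hdp))
          rw [← hrz] at h2
          exact_mod_cast h2
        have h3 : r + p / d * d = p := by
          rw [← h1, mul_comm]; exact Nat.mod_add_div p d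
        show (r + p / d * d).Prime
        rw [h3]; exact hpp
    · intro p hp p' hp' hpp'
      rw [mem_coe, mem_filter, mem_Icc] at hp hp'
      have key : ∀ q : ℕ, (d : ℤ) ∣ (q : ℤ) + a → q % d = r := by
        intro q hq
        have h2 : ((q : ℤ)) % (d : ℤ) = (-a) % (d : ℤ) :=
          Int.ModEq.symm (Int.modEq_iff_dvd.2 (by simpa using hq))
        rw [← hrz] at h2
        exact_mod_cast h2
      have e1 := key p hp.2.2
      have e2 := key p' hp'.2.2
      have e3 : p / d = p' / d := hpp'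
      rw [← Nat.mod_add_div p d, ← Nat.mod_add_div p' d, e1, e2, e3]
  have hbt := Pool.Agent.H692R2.USS.t1_brun_titchmarsh r d N hN2 hd
  have h1 : (((Icc 1 X).filter (fun p : ℕ => p.Prime ∧ (d : ℤ) ∣ (p : ℤ) + a)).card : ℝ) ≤
      22 * ((d : ℝ) / Nat.totient d) * N / Real.log N := by
    refine le_trans ?_ hbt
    exact_mod_cast hkey
  refine h1.trans ?_
  have hlX : 0 < Real.log X := Real.log_pos (by linarith)
  have hNr : (N : ℝ) ≤ 2 * (X / d) := by
    have e1 : ((X / d : ℕ) : ℝ) ≤ (X : ℝ) / d := Nat.cast_div_le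
    have e2 : 1 ≤ (X : ℝ) / d := by
      rw [le_div_iff₀ hd0]
      rw [one_mul]
      exact_mod_cast hdd
    rw [hN]; push_cast; linarith
  have hlN : Real.log X / 2 ≤ Real.log N := by
    have e1 : (X : ℝ) ≤ (N : ℝ) * N := by
      have e2 : X < (X / d + 1) * d := by
        have := Nat.lt_mul_div_succ X (by omega : 0 < d)
        rw [mul_comm]; exact this
      have e3 : (X / d + 1) * d ≤ N * N := by
        rw [hN]
        exact Nat.mul_le_mul_left _ (by omega)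
      exact_mod_cast (e2.le.trans e3)
    have hN0 : (0 : ℝ) < N := by exact_mod_cast (by omega : 0 < N)
    have e4 := Real.log_le_log hX0 e1
    rw [Real.log_mul hN0.ne' hN0.ne'] at e4
    linarith
  have htot := tot_le d hd
  have htot0 : 0 ≤ (d : ℝ) / Nat.totient d := by positivity
  have hld : 0 ≤ Real.log d := Real.log_nonneg hd1
  calc 22 * ((d : ℝ) / Nat.totient d) * N / Real.log N
      ≤ 22 * (2 * (1 + Real.log d)) * (2 * (X / d)) / (Real.log X / 2) := by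
        apply div_le_div₀ (by positivity) _ (by linarith) hlN
        apply mul_le_mul _ hNr (Nat.cast_nonneg _) (by positivity)
        linarith
    _ = 176 * (X / Real.log X) * ((1 + Real.log d) / d) := by
        field_simp
        ring
    _ ≤ 176 * (X / Real.log X) * ((1 + Real.log d) ^ 2 / d) := by
        apply mul_le_mul_of_nonneg_left _ (by positivity)
        apply div_le_div_of_nonneg_right _ hd0.le
        nlinarith

/-- integers `|a| < p ≤ X` with `d ∣ p + a` -/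
lemma big (a : ℤ) (X d : ℕ) (hd : 1 ≤ d) (hX : 1 ≤ X) :
    (((Icc 1 X).filter (fun p : ℕ => a.natAbs < p ∧ (d : ℤ) ∣ (p : ℤ) + a)).card : ℝ) ≤
      (1 + a.natAbs) * X * ((1 + Real.log d) ^ 2 / d) := by
  have hd1 : (1 : ℝ) ≤ d := by exact_mod_cast hd
  have hX1 : (1 : ℝ) ≤ X := by exact_mod_cast hX
  have hkey : ((Icc 1 X).filter (fun p : ℕ => a.natAbs < p ∧ (d : ℤ) ∣ (p : ℤ) + a)).card ≤
      (X + a.natAbs) / d := by
    have := Nat.card_multiples' (X + a.natAbs) d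
    rw [← this]
    apply Finset.card_le_card_of_injOn (fun p : ℕ => ((p : ℤ) + a).toNat)
    · intro p hp
      rw [mem_coe, mem_filter, mem_Icc] at hp
      obtain ⟨⟨hp1, hpX⟩, hpa, hdp⟩ := hp
      rw [mem_coe, mem_filter, mem_range]
      refine ⟨by simp only; omega, by simp only; omega, ?_⟩
      have h1 : (((p : ℤ) + a).toNat : ℤ) = (p : ℤ) + a := Int.toNat_of_nonneg (by omega)
      have h2 : (d : ℤ) ∣ (((p : ℤ) + a).toNat : ℤ) := by rw [h1]; exact hdp
      exact_mod_cast h2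
    · intro p hp p' hp' hpp'
      rw [mem_coe, mem_filter, mem_Icc] at hp hp'
      simp only at hpp'
      omega
  have h1 : (((Icc 1 X).filter (fun p : ℕ => a.natAbs < p ∧ (d : ℤ) ∣ (p : ℤ) + a)).card : ℝ) ≤
      ((X + a.natAbs : ℕ) : ℝ) / d := by
    refine le_trans ?_ Nat.cast_div_le
    exact_mod_cast hkey
  refine h1.trans ?_
  have e3 : 0 ≤ Real.log d := Real.log_nonneg hd1
  have e4 : 1 ≤ (1 + Real.log d) ^ 2 := one_le_pow₀ (by linarith)
  have e5 : (0 : ℝ) ≤ a.natAbs := Nat.cast_nonneg _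
  rw [← mul_div_assoc]
  apply div_le_div_of_nonneg_right _ (by linarith)
  push_cast
  calc (X : ℝ) + (a.natAbs : ℝ) ≤ (1 + a.natAbs) * X * 1 := by nlinarith
    _ ≤ (1 + a.natAbs) * X * (1 + Real.log d) ^ 2 := by
        apply mul_le_mul_of_nonneg_left e4
        positivity

/-- **All divisors of almost all shifted primes.** -/
theorem shifted {β c K : ℝ} (hβ : 0 < β) (hβ1 : β ≤ 1) (hc : 0 < c) (hK : 0 ≤ K) :
    ∃ K' : ℝ, 0 ≤ K' ∧ ∀ E : Set ℕ, Thin β c K E → ∀ (a : ℤ) (X y : ℕ), 1 ≤ y → y ≤ X → 4 ≤ X →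
      (((Icc 1 X).filter (fun p : ℕ => p.Prime ∧ a.natAbs < p ∧
        ∃ d : ℕ, (d : ℤ) ∣ (p : ℤ) + a ∧ y ≤ d ∧ d ∈ E)).card : ℝ) ≤
        K' * (1 + a.natAbs) * (X / Real.log X) * Real.exp (-(c / 8 * Real.log y ^ β)) := by
  obtain ⟨K₁, hK₁, htail⟩ := tail hβ hc hK
  obtain ⟨A, hA0, hA⟩ := absorb 1 hβ (by positivity : 0 < c / 8)
  refine ⟨176 * K₁ + K₁ * A, by positivity, fun E hE a X y hy hyX hX => ?_⟩
  have hX4 : (4 : ℝ) ≤ X := by exact_mod_cast hX
  have hX0 : (0 : ℝ) < X := by linarith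
  have hlX : 0 < Real.log X := Real.log_pos (by linarith)
  have hly : 0 ≤ Real.log y := Real.log_nonneg (by exact_mod_cast hy)
  have hlyX : Real.log y ≤ Real.log X := Real.log_le_log (by exact_mod_cast hy) (by exact_mod_cast hyX)
  have hna : (0 : ℝ) ≤ a.natAbs := Nat.cast_nonneg _
  obtain ⟨Z, hZ⟩ : ∃ Z : ℕ, Z = X + a.natAbs := ⟨_, rfl⟩
  obtain ⟨s, hs⟩ : ∃ s : ℕ, s = Nat.sqrt X := ⟨_, rfl⟩
  obtain ⟨S1, hS1⟩ : ∃ S1, S1 = (Icc y s).filter (fun d => d ∈ E) := ⟨_, rfl⟩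
  obtain ⟨S2, hS2⟩ : ∃ S2, S2 = (Icc (s + 1) Z).filter (fun d => d ∈ E) := ⟨_, rfl⟩
  have hsub : (Icc 1 X).filter (fun p : ℕ => p.Prime ∧ a.natAbs < p ∧
        ∃ d : ℕ, (d : ℤ) ∣ (p : ℤ) + a ∧ y ≤ d ∧ d ∈ E) ⊆
      (S1.biUnion (fun d => (Icc 1 X).filter (fun p : ℕ => p.Prime ∧ (d : ℤ) ∣ (p : ℤ) + a))) ∪
      (S2.biUnion (fun d => (Icc 1 X).filter (fun p : ℕ => a.natAbs < p ∧ (d : ℤ) ∣ (p : ℤ) + a))) := by
    intro p hp
    rw [mem_filter, mem_Icc] at hp
    obtain ⟨⟨hp1, hpX⟩, hpp, hpa, d, hd, hyd, hdE⟩ := hp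
    rw [mem_union, mem_biUnion, mem_biUnion]
    by_cases hds : d ≤ s
    · left
      refine ⟨d, ?_, ?_⟩
      · rw [hS1, mem_filter, mem_Icc]; exact ⟨⟨hyd, hds⟩, hdE⟩
      · rw [mem_filter, mem_Icc]; exact ⟨⟨hp1, hpX⟩, hpp, hd⟩
    · right
      refine ⟨d, ?_, ?_⟩
      · rw [hS2, mem_filter, mem_Icc]
        refine ⟨⟨by omega, ?_⟩, hdE⟩
        have h1 : (d : ℤ) ≤ (p : ℤ) + a := Int.le_of_dvd (by omega) hd
        omega
      · rw [mem_filter, mem_Icc]; exact ⟨⟨hp1, hpX⟩, hpa, hd⟩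
  have h1 := ((card_le_card hsub).trans (card_union_le _ _)).trans
    (add_le_add card_biUnion_le card_biUnion_le)
  have h2 : (((Icc 1 X).filter (fun p : ℕ => p.Prime ∧ a.natAbs < p ∧
        ∃ d : ℕ, (d : ℤ) ∣ (p : ℤ) + a ∧ y ≤ d ∧ d ∈ E)).card : ℝ) ≤
      ∑ d ∈ S1, (((Icc 1 X).filter (fun p : ℕ => p.Prime ∧ (d : ℤ) ∣ (p : ℤ) + a)).card : ℝ) +
      ∑ d ∈ S2, (((Icc 1 X).filter (fun p : ℕ => a.natAbs < p ∧ (d : ℤ) ∣ (p : ℤ) + a)).card : ℝ) := by
    exact_mod_cast h1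
  refine h2.trans ?_
  have h3 : ∑ d ∈ S1, (((Icc 1 X).filter (fun p : ℕ => p.Prime ∧ (d : ℤ) ∣ (p : ℤ) + a)).card : ℝ) ≤
      176 * (X / Real.log X) * (K₁ * Real.exp (-(c / 2 * Real.log y ^ β))) := by
    have e1 : ∀ d ∈ S1, (((Icc 1 X).filter (fun p : ℕ => p.Prime ∧ (d : ℤ) ∣ (p : ℤ) + a)).card : ℝ) ≤
        176 * (X / Real.log X) * ((1 + Real.log d) ^ 2 / d) := by
      intro d hd
      rw [hS1, mem_filter, mem_Icc] at hd
      apply bt_small a X d (by omega) hX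
      have : d * d ≤ s * s := Nat.mul_le_mul hd.1.2 hd.1.2
      rw [hs] at this
      exact this.trans (Nat.sqrt_le X)
    refine (sum_le_sum e1).trans ?_
    rw [← mul_sum]
    apply mul_le_mul_of_nonneg_left _ (by positivity)
    rw [hS1]
    exact htail E hE y s hy
  have h4 : ∑ d ∈ S2, (((Icc 1 X).filter (fun p : ℕ => a.natAbs < p ∧ (d : ℤ) ∣ (p : ℤ) + a)).card : ℝ) ≤
      (1 + a.natAbs) * X * (K₁ * Real.exp (-(c / 2 * Real.log ((s + 1 : ℕ) : ℝ) ^ β))) := by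
    have e1 : ∀ d ∈ S2, (((Icc 1 X).filter (fun p : ℕ => a.natAbs < p ∧ (d : ℤ) ∣ (p : ℤ) + a)).card : ℝ) ≤
        (1 + a.natAbs) * X * ((1 + Real.log d) ^ 2 / d) := by
      intro d hd
      rw [hS2, mem_filter, mem_Icc] at hd
      exact big a X d (by omega) (by omega)
    refine (sum_le_sum e1).trans ?_
    rw [← mul_sum]
    apply mul_le_mul_of_nonneg_left _ (by positivity)
    rw [hS2]
    exact htail E hE (s + 1) Z (by omega)
  -- the second exponential
  have hLβ : 0 ≤ Real.log X ^ β := by positivity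
  have hyβ : Real.log y ^ β ≤ Real.log X ^ β := Real.rpow_le_rpow hly hlyX hβ.le
  have hyβ0 : 0 ≤ Real.log y ^ β := by positivity
  have h5 : Real.log X / 2 ≤ Real.log ((s + 1 : ℕ) : ℝ) := by
    have e1 : (X : ℝ) ≤ ((s + 1 : ℕ) : ℝ) * ((s + 1 : ℕ) : ℝ) := by
      rw [hs]
      exact_mod_cast (Nat.lt_succ_sqrt X).le
    have hN0 : (0 : ℝ) < ((s + 1 : ℕ) : ℝ) := by positivity
    have e4 := Real.log_le_log hX0 e1
    rw [Real.log_mul hN0.ne' hN0.ne'] at e4
    linarith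
  have h6 : Real.log X ^ β / 2 ≤ Real.log ((s + 1 : ℕ) : ℝ) ^ β := by
    have e1 : (Real.log X / 2) ^ β ≤ Real.log ((s + 1 : ℕ) : ℝ) ^ β :=
      Real.rpow_le_rpow (by positivity) h5 hβ.le
    have e2 : Real.log X ^ β / 2 ≤ (Real.log X / 2) ^ β := by
      rw [Real.div_rpow hlX.le (by norm_num)]
      apply div_le_div_of_nonneg_left hLβ (by positivity)
      calc (2 : ℝ) ^ β ≤ (2 : ℝ) ^ (1 : ℝ) := Real.rpow_le_rpow_of_exponent_le (by norm_num) hβ1
        _ = 2 := Real.rpow_one _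
    exact e2.trans e1
  have h7 : Real.exp (-(c / 2 * Real.log ((s + 1 : ℕ) : ℝ) ^ β)) ≤
      A / Real.log X * Real.exp (-(c / 8 * Real.log y ^ β)) := by
    have e1 : Real.exp (-(c / 2 * Real.log ((s + 1 : ℕ) : ℝ) ^ β)) ≤
        Real.exp (-(c / 8 * Real.log X ^ β)) * Real.exp (-(c / 8 * Real.log y ^ β)) := by
      rw [← Real.exp_add]
      apply Real.exp_le_exp.2
      nlinarith
    have e2 := hA (Real.log X) hlX.le
    rw [pow_one] at e2
    have e3 := Real.exp_pos (-(c / 8 * Real.log y ^ β))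
    have e4 : Real.exp (-(c / 8 * Real.log X ^ β)) ≤ A / Real.log X := by
      rw [le_div_iff₀ hlX, Real.exp_neg, inv_mul_le_iff₀ (Real.exp_pos _)]
      nlinarith
    exact e1.trans (mul_le_mul_of_nonneg_right e4 e3.le)
  have h8 : Real.exp (-(c / 2 * Real.log y ^ β)) ≤ Real.exp (-(c / 8 * Real.log y ^ β)) := by
    apply Real.exp_le_exp.2
    nlinarith
  obtain ⟨W, hW⟩ : ∃ W : ℝ, W = Real.exp (-(c / 8 * Real.log y ^ β)) := ⟨_, rfl⟩
  rw [← hW] at h7 h8 ⊢
  have hW0 : 0 ≤ W := by rw [hW]; positivity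
  have h9 : 176 * (X / Real.log X) * (K₁ * Real.exp (-(c / 2 * Real.log y ^ β))) ≤
      176 * K₁ * (1 + a.natAbs) * (X / Real.log X) * W := by
    calc 176 * (X / Real.log X) * (K₁ * Real.exp (-(c / 2 * Real.log y ^ β)))
        ≤ 176 * (X / Real.log X) * (K₁ * W) := by
          apply mul_le_mul_of_nonneg_left _ (by positivity)
          exact mul_le_mul_of_nonneg_left h8 hK₁
      _ = 176 * K₁ * 1 * (X / Real.log X) * W := by ring
      _ ≤ 176 * K₁ * (1 + a.natAbs) * (X / Real.log X) * W := by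
          apply mul_le_mul_of_nonneg_right _ hW0
          apply mul_le_mul_of_nonneg_right _ (by positivity)
          apply mul_le_mul_of_nonneg_left _ (by positivity)
          linarith
  have h10 : (1 + a.natAbs) * X * (K₁ * Real.exp (-(c / 2 * Real.log ((s + 1 : ℕ) : ℝ) ^ β))) ≤
      K₁ * A * (1 + a.natAbs) * (X / Real.log X) * W := by
    calc (1 + a.natAbs) * X * (K₁ * Real.exp (-(c / 2 * Real.log ((s + 1 : ℕ) : ℝ) ^ β)))
        ≤ (1 + a.natAbs) * X * (K₁ * (A / Real.log X * W)) := by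
          apply mul_le_mul_of_nonneg_left _ (by positivity)
          exact mul_le_mul_of_nonneg_left h7 hK₁
      _ = K₁ * A * (1 + a.natAbs) * (X / Real.log X) * W := by ring
  calc _ ≤ _ := add_le_add h3 h4
    _ ≤ 176 * K₁ * (1 + a.natAbs) * (X / Real.log X) * W + K₁ * A * (1 + a.natAbs) * (X / Real.log X) * W :=
        add_le_add h9 h10
    _ = _ := by ring

end Pool.Agent.N943.DS
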